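import Pool.Agent.Helper20.DER.Geo

/-!
# TRI, S3: the function field is one of a curve, over an arbitrary base field
-/

set_option autoImplicit false

namespace Pool.Agent.TRI

open Module MvPolynomial AlgebraicIndependent Pool.Agent.Helper20.DER

universe u

/-- A point of the surface of rank two over `L` satisfies over `L` only the equations of the
surface. -/
theorem mem_map_of_cone20 {k₀ L E : Type u} [Field k₀] [Field L] [Field E] [Algebra k₀ L]
    [Algebra L E] [Algebra k₀ E] [IsScalarTower k₀ L E] {N : ℕ}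
    {I : Ideal (MvPolynomial (Fin (N + 1)) k₀)} (hX : Surf I) {z : Fin (N + 1) → E}
    {c : Fin (N + 1)} (hc : z c = 1) (hz : OnX I z)
    (h2 : ((2 : ℕ) : ℕ∞) ≤ (matroid L E).eRk (Set.range z))
    (W : MvPolynomial (Fin (N + 1)) L)
    (hW : MvPolynomial.aeval (fun i => (Polynomial.X : Polynomial E) * Polynomial.C (z i)) W = 0) :
    W ∈ I.map (MvPolynomial.map (algebraMap k₀ L)) := by
  set IL : Ideal (MvPolynomial (Fin (N + 1)) L) := I.map (MvPolynomial.map (algebraMap k₀ L))
    with hIL
  have hprimeL : IL.IsPrime := hX.geo L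
  have hr := le_eRk_cone (k0 := L) hc h2
  obtain ⟨J, hJS, hJ, hJn⟩ := Matroid.le_eRk_iff.1 hr
  let ψ : MvPolynomial (Fin (N + 1)) L →ₐ[L] Polynomial E :=
    MvPolynomial.aeval (fun i => (Polynomial.X : Polynomial E) * Polynomial.C (z i))
  have hker : IL ≤ RingHom.ker ψ := by
    rw [hIL, Ideal.map_le_iff_le_comap]
    intro F hF
    rw [Ideal.mem_comap, RingHom.mem_ker]
    change MvPolynomial.aeval _ (MvPolynomial.map (algebraMap k₀ L) F) = 0
    rw [MvPolynomial.aeval_map_algebraMap]
    exact cone_of_onX hX hz F hF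
  let f : (MvPolynomial (Fin (N + 1)) L ⧸ IL) →ₐ[L] Polynomial E :=
    Ideal.Quotient.liftₐ IL ψ (fun F hF => hker hF)
  have hf : ∀ F, f (Ideal.Quotient.mk IL F) = ψ F := fun F => rfl
  have hfin : J.Finite := Set.finite_of_encard_eq_coe hJn
  have hcard : Nat.card J = 3 := by
    rw [Nat.card_coe_set_eq, Set.ncard_def, hJn]; rfl
  have hFi : Finite J := hfin
  let e : Fin 3 ≃ J := (Finite.equivFinOfCardEq hcard).symm
  have hex : ∀ x : J, ∃ i, f (Ideal.Quotient.mk IL (MvPolynomial.X i)) = x := by
    intro x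
    obtain ⟨i, hi⟩ := hJS x.2
    refine ⟨i, ?_⟩
    rw [hf]
    change MvPolynomial.aeval _ (MvPolynomial.X i) = _
    rw [MvPolynomial.aeval_X]; exact hi
  choose w hw using hex
  have hinj : Function.Injective f := by
    refine injective_of_algebraicIndependent f
      (fun i => Ideal.Quotient.mk IL (MvPolynomial.X (w (e i)))) ?_ ?_
    · have h3 : f ∘ (fun i => Ideal.Quotient.mk IL (MvPolynomial.X (w (e i)))) =
          Subtype.val ∘ e := by
        funext x
        exact hw _
      rw [h3]
      exact (matroid_indep_iff.1 hJ).comp _ e.injective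
    · exact (trdeg_map_le hX L).trans (by norm_num)
  rw [← Ideal.Quotient.eq_zero_iff_mem]
  apply hinj
  rw [map_zero, hf]
  exact hW

theorem crv_s {k₀ k E : Type u} [Field k₀] [CharZero k₀] [Field k] [Field E] [Algebra k₀ k] [Algebra k E] [Algebra k₀ E]
    [IsScalarTower k₀ k E] {N : ℕ} {I : Ideal (MvPolynomial (Fin (N + 1)) k₀)} (hX : Surf I)
    (ξ : Fin (N + 1) → E) (h1 : ∃ j, ξ j = 1) (hg : IntermediateField.adjoin k (Set.range ξ) = ⊤) (ht : ∃ j, Transcendental k (ξ j))
    (hξ : OnX I ξ) (G : MvPolynomial (Fin (N + 1)) k) (hG : G ∉ I.map (MvPolynomial.map (algebraMap k₀ k)))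
    (hGh : ∃ e, G.IsHomogeneous e) (hGξ : aeval ξ G = 0) : Crv (Submodule.span k (Set.range ξ)) := by
  classical
  have hr : (matroid k E).eRk (Set.range ξ) ≤ 1 := by
    by_contra hcon
    push Not at hcon
    have h2 : ((2 : ℕ) : ℕ∞) ≤ (matroid k E).eRk (Set.range ξ) := Order.add_one_le_of_lt hcon
    obtain ⟨c, hc⟩ := h1
    obtain ⟨e, he⟩ := hGh
    exact hG (mem_map_of_cone20 hX hc hξ h2 G (by
      rw [aeval_cone_hom ξ he, hGξ, map_zero, mul_zero]))
  have huniv : (matroid k E).eRk Set.univ ≤ 1 := by
    have h2 : Set.univ ⊆ (matroid k E).closure (Set.range ξ) := by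
      intro y _
      apply adjoin_subset_closure
      rw [hg]
      trivial
    refine ((matroid k E).eRk_mono h2).trans ?_
    rw [Matroid.eRk_closure_eq]
    exact hr
  refine ⟨?_, ?_, ?_, fun x y hx => ?_⟩
  · obtain ⟨j, hj⟩ := h1
    rw [← hj]
    exact Submodule.subset_span ⟨j, rfl⟩
  · rw [eq_top_iff, ← hg]
    exact IntermediateField.adjoin.mono _ _ _ Submodule.subset_span
  · obtain ⟨j, hj⟩ := ht
    exact ⟨ξ j, Submodule.subset_span ⟨j, rfl⟩, hj⟩
  · have hx1 : (matroid k E).Indep {x} := by
      rw [matroid_indep_iff]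
      have h2 : AlgebraicIndependent k (fun _ : Unit => x) :=
        algebraicIndependent_unique_type_iff.2 hx
      have h3 := h2.coe_range
      rwa [Set.range_const] at h3
    have hy : y ∈ (matroid k E).closure {x} := by
      by_contra hy
      have h2 : (matroid k E).Indep (insert y {x}) := by
        rw [Matroid.Indep.insert_indep_iff hx1]
        left
        exact ⟨by rw [matroid_e]; exact Set.mem_univ _, hy⟩
      have h3 := (matroid k E).eRk_mono (Set.subset_univ (insert y {x}))
      rw [h2.eRk_eq_encard, Set.encard_insert_of_notMem, Set.encard_singleton] at h3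
      · exact absurd (h3.trans huniv) (by norm_num)
      · intro hmem
        exact hy (subset_closure' _ hmem)
    rw [Pool.Agent.Helper20.DER.mem_closure_iff] at hy
    let ι : Algebra.adjoin k {x} →+* IntermediateField.adjoin k {x} :=
      { toFun := fun z => ⟨z.1, IntermediateField.algebra_adjoin_le_adjoin k {x} z.2⟩
        map_one' := rfl
        map_zero' := rfl
        map_add' := fun _ _ => rfl
        map_mul' := fun _ _ => rfl }
    have hι : Function.Injective ι := fun a b hab =>
      Subtype.ext (congrArg (fun w : IntermediateField.adjoin k {x} => (w : E)) hab)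
    refine hy.ringHom_of_comp_eq ι (RingHom.id E) hι ?_
    ext a
    rfl

end Pool.Agent.TRI
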