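import Pool.Agent.Helper20.TRI.NodesGen
import Pool.Agent.Helper31.TRI.Ultra
import Pool.Agent.Helper77.TRI.Lim

/-!
# TRI, G9: nodes
-/

set_option autoImplicit false

namespace Pool.Agent.TRI

open Module MvPolynomial Filter

universe u

section lim

variable {k₀ : Type u} [Field k₀] {J : Type u} {E : J → Type u} [∀ j, Field (E j)]
  [∀ j, Algebra k₀ (E j)] {F : Type u} [Field F] [Algebra k₀ F] (π : (∀ j, E j) →ₐ[k₀] F)

theorem lim_aeval20 {σ : Type*} (z : ∀ j, σ → E j) (G : MvPolynomial σ k₀) :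
    π (fun j => aeval (z j) G) = aeval (fun i => π fun j => z j i) G := by
  have h1 : (fun j => aeval (z j) G) = aeval (fun i => (fun j => z j i : ∀ j, E j)) G := by
    funext j
    have h2 := MvPolynomial.comp_aeval_apply (R := k₀) (f := fun i => (fun j => z j i : ∀ j, E j))
      (Pi.evalAlgHom k₀ E j) G
    exact h2.symm
  rw [h1, MvPolynomial.comp_aeval_apply]

theorem lim_onX20 {N : ℕ} {I : Ideal (MvPolynomial (Fin N) k₀)} (z : ∀ j, Fin N → E j)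
    (hz : ∀ j, OnX I (z j)) : OnX I (fun i => π fun j => z j i) := by
  intro G hG
  rw [← lim_aeval20]
  have h1 : (fun j => aeval (z j) G) = (0 : ∀ j, E j) := by
    funext j
    exact hz j G hG
  rw [h1, map_zero]

theorem lim_lv20 {N : ℕ} (l z : ∀ j, Fin N → E j) :
    lv (fun c => π fun j => l j c) (fun c => π fun j => z j c) = π (fun j => lv (l j) (z j)) := by
  have h1 : (fun j => lv (l j) (z j)) =
      ∑ c, ((fun j => l j c : ∀ j, E j) * (fun j => z j c : ∀ j, E j)) := by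
    funext j
    rw [Finset.sum_apply]
    rfl
  rw [h1, map_sum]
  refine Finset.sum_congr rfl fun c _ => ?_
  rw [map_mul]
  rfl

variable {U : Ultrafilter J} (hπ : ∀ x, π x = 0 ↔ ∀ᶠ j in (U : Filter J), x j = 0)

include hπ

theorem lim_lv_zero20 {N : ℕ} (l z : ∀ j, Fin N → E j)
    (h : ∀ᶠ j in (U : Filter J), lv (l j) (z j) = 0) :
    lv (fun c => π fun j => l j c) (fun c => π fun j => z j c) = 0 := by
  rw [lim_lv20, hπ]
  exact h

theorem lim_ne_zero20 {N : ℕ} (z : ∀ j, Fin N → E j) (h : ∀ j, z j ≠ 0) :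
    (fun c => π fun j => z j c) ≠ 0 := by
  obtain ⟨c, hc⟩ := uexists77 U (fun j c => z j c ≠ 0) (fun j => by
    obtain ⟨c, hc⟩ := Function.ne_iff.1 (h j)
    exact ⟨c, hc⟩)
  intro h0
  have h1 : π (fun j => z j c) = 0 := congrFun h0 c
  rw [hπ] at h1
  obtain ⟨j, hj1, hj2⟩ := (h1.and hc).exists
  exact hj2 hj1

end lim

section

variable {k₀ : Type u} [Field k₀] {N : ℕ} {I : Ideal (MvPolynomial (Fin (N + 1)) k₀)}

theorem three_phi20 (hX : Surf I) (q : ℕ) :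
    ∃ Φ : MvPolynomial (Fin q × Fin (N + 1)) k₀, Φ ≠ 0 ∧
    ∀ (K : Type u) [Field K] [Algebra k₀ K] (l : Fin q → Fin (N + 1) → K),
      aeval (fun p : Fin q × Fin (N + 1) => l p.1 p.2) Φ ≠ 0 →
      ∀ z : Fin (N + 1) → K, z ≠ 0 → OnX I z → ∀ g : Fin 3 → Fin q, Function.Injective g →
      ¬ (lv (l (g 0)) z = 0 ∧ lv (l (g 1)) z = 0 ∧ lv (l (g 2)) z = 0) := by
  by_contra hcon
  push Not at hcon
  have hcon' : ∀ j : {Φ : MvPolynomial (Fin q × Fin (N + 1)) k₀ // Φ ≠ 0}, _ :=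
    fun j => hcon j.1 j.2
  choose K iF iA l hl z hz0 hz g hg e0 e1 e2 using hcon'
  obtain ⟨U, F, _, _, -, π, hsurj, hπ, -, hind, -⟩ :=
    ultra K (fun _ => ⊤) (fun j p => l j p.1 p.2) hl
  obtain ⟨g', hg'⟩ := uexists77 U (fun j g' => g j = g') (fun j => ⟨g j, rfl⟩)
  have hinj : Function.Injective g' := by
    obtain ⟨j, hj⟩ := hg'.exists
    rw [← hj]
    exact hg j
  refine three_gen20 hX (fun i c => π fun j => l j i c) hind (fun c => π fun j => z j c)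
    (lim_ne_zero20 π hπ z hz0) (lim_onX20 π z hz) g' hinj ⟨?_, ?_, ?_⟩
  · exact lim_lv_zero20 π hπ (fun j => l j (g' 0)) z (hg'.mono fun j hj => by rw [← hj]; exact e0 j)
  · exact lim_lv_zero20 π hπ (fun j => l j (g' 1)) z (hg'.mono fun j hj => by rw [← hj]; exact e1 j)
  · exact lim_lv_zero20 π hπ (fun j => l j (g' 2)) z (hg'.mono fun j hj => by rw [← hj]; exact e2 j)

theorem col_phi20 (hX : Surf I) (q : ℕ) :
    ∃ Φ : MvPolynomial (Fin q × Fin (N + 1)) k₀, Φ ≠ 0 ∧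
    ∀ (K : Type u) [Field K] [Algebra k₀ K] (l : Fin q → Fin (N + 1) → K),
      aeval (fun p : Fin q × Fin (N + 1) => l p.1 p.2) Φ ≠ 0 →
      ∀ z₁ z₂ z₃ : Fin (N + 1) → K, z₁ ≠ 0 → z₂ ≠ 0 → z₃ ≠ 0 → OnX I z₁ → OnX I z₂ → OnX I z₃ →
      ∀ g : Fin 6 → Fin q, Function.Injective g →
      lv (l (g 0)) z₁ = 0 → lv (l (g 1)) z₁ = 0 → lv (l (g 2)) z₂ = 0 → lv (l (g 3)) z₂ = 0 →
      lv (l (g 4)) z₃ = 0 → lv (l (g 5)) z₃ = 0 →
      ∀ c : Fin 3 → K, c ≠ 0 → ∃ j, c 0 * z₁ j + c 1 * z₂ j + c 2 * z₃ j ≠ 0 := by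
  by_contra hcon
  push Not at hcon
  have hcon' : ∀ j : {Φ : MvPolynomial (Fin q × Fin (N + 1)) k₀ // Φ ≠ 0}, _ :=
    fun j => hcon j.1 j.2
  choose K iF iA l hl z₁ z₂ z₃ h1 h2 h3 hz₁ hz₂ hz₃ g hg e0 e1 e2 e3 e4 e5 c hc hsum using hcon'
  obtain ⟨U, F, _, _, -, π, hsurj, hπ, -, hind, -⟩ :=
    ultra K (fun _ => ⊤) (fun j p => l j p.1 p.2) hl
  obtain ⟨g', hg'⟩ := uexists77 U (fun j g' => g j = g') (fun j => ⟨g j, rfl⟩)
  have hinj : Function.Injective g' := by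
    obtain ⟨j, hj⟩ := hg'.exists
    rw [← hj]
    exact hg j
  refine col_gen20 hX (fun i c => π fun j => l j i c) hind (fun c => π fun j => z₁ j c)
    (fun c => π fun j => z₂ j c) (fun c => π fun j => z₃ j c)
    (lim_ne_zero20 π hπ z₁ h1) (lim_ne_zero20 π hπ z₂ h2) (lim_ne_zero20 π hπ z₃ h3)
    (lim_onX20 π z₁ hz₁) (lim_onX20 π z₂ hz₂) (lim_onX20 π z₃ hz₃) g' hinj
    ?_ ?_ ?_ ?_ ?_ ?_ (fun i => π fun j => c j i) (lim_ne_zero20 π hπ c hc) ?_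
  · exact lim_lv_zero20 π hπ (fun j => l j (g' 0)) z₁ (hg'.mono fun j hj => by rw [← hj]; exact e0 j)
  · exact lim_lv_zero20 π hπ (fun j => l j (g' 1)) z₁ (hg'.mono fun j hj => by rw [← hj]; exact e1 j)
  · exact lim_lv_zero20 π hπ (fun j => l j (g' 2)) z₂ (hg'.mono fun j hj => by rw [← hj]; exact e2 j)
  · exact lim_lv_zero20 π hπ (fun j => l j (g' 3)) z₂ (hg'.mono fun j hj => by rw [← hj]; exact e3 j)
  · exact lim_lv_zero20 π hπ (fun j => l j (g' 4)) z₃ (hg'.mono fun j hj => by rw [← hj]; exact e4 j)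
  · exact lim_lv_zero20 π hπ (fun j => l j (g' 5)) z₃ (hg'.mono fun j hj => by rw [← hj]; exact e5 j)
  · intro i
    rw [← map_mul, ← map_mul, ← map_mul, ← map_add, ← map_add]
    have h4 : ((fun j => c j 0 : ∀ j, K j) * (fun j => z₁ j i) +
        (fun j => c j 1 : ∀ j, K j) * (fun j => z₂ j i) +
        (fun j => c j 2 : ∀ j, K j) * (fun j => z₃ j i)) = 0 := by
      funext j
      exact hsum j i
    rw [h4, map_zero]

theorem line_phi20 [CharZero k₀] (hX : Surf I) (hP : ¬ Plane I) (q : ℕ) :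
    ∃ Φ : MvPolynomial (Fin q × Fin (N + 1)) k₀, Φ ≠ 0 ∧
    ∀ (K : Type u) [Field K] [Algebra k₀ K] (l : Fin q → Fin (N + 1) → K),
      aeval (fun p : Fin q × Fin (N + 1) => l p.1 p.2) Φ ≠ 0 →
      ∀ z₁ z₂ : Fin (N + 1) → K, z₁ ≠ 0 → z₂ ≠ 0 →
      (∀ s t : K, OnX I fun j => s * z₁ j + t * z₂ j) →
      ∀ g : Fin 4 → Fin q, Function.Injective g →
      ¬ (lv (l (g 0)) z₁ = 0 ∧ lv (l (g 1)) z₁ = 0 ∧ lv (l (g 2)) z₂ = 0 ∧
        lv (l (g 3)) z₂ = 0) := by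
  by_contra hcon
  push Not at hcon
  have hcon' : ∀ j : {Φ : MvPolynomial (Fin q × Fin (N + 1)) k₀ // Φ ≠ 0}, _ :=
    fun j => hcon j.1 j.2
  choose K iF iA l hl z₁ z₂ h1 h2 hline g hg e0 e1 e2 e3 using hcon'
  obtain ⟨U, F, _, _, -, π, hsurj, hπ, -, hind, -⟩ :=
    ultra K (fun _ => ⊤) (fun j p => l j p.1 p.2) hl
  obtain ⟨g', hg'⟩ := uexists77 U (fun j g' => g j = g') (fun j => ⟨g j, rfl⟩)
  have hinj : Function.Injective g' := by
    obtain ⟨j, hj⟩ := hg'.exists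
    rw [← hj]
    exact hg j
  refine line_gen20 hX hP (fun i c => π fun j => l j i c) hind (fun c => π fun j => z₁ j c)
    (fun c => π fun j => z₂ j c)
    (lim_ne_zero20 π hπ z₁ h1) (lim_ne_zero20 π hπ z₂ h2) ?_ g' hinj
    ?_ ?_ ?_ ?_
  · intro s t
    obtain ⟨s', rfl⟩ := hsurj s
    obtain ⟨t', rfl⟩ := hsurj t
    have h4 := lim_onX20 π (fun j i => s' j * z₁ j i + t' j * z₂ j i)
      (fun j => hline j (s' j) (t' j))
    have h5 : (fun i => π s' * (π fun j => z₁ j i) + π t' * (π fun j => z₂ j i)) =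
        fun i => π fun j => s' j * z₁ j i + t' j * z₂ j i := by
      funext i
      rw [← map_mul, ← map_mul, ← map_add]
      rfl
    rw [h5]
    exact h4
  · exact lim_lv_zero20 π hπ (fun j => l j (g' 0)) z₁ (hg'.mono fun j hj => by rw [← hj]; exact e0 j)
  · exact lim_lv_zero20 π hπ (fun j => l j (g' 1)) z₁ (hg'.mono fun j hj => by rw [← hj]; exact e1 j)
  · exact lim_lv_zero20 π hπ (fun j => l j (g' 2)) z₂ (hg'.mono fun j hj => by rw [← hj]; exact e2 j)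
  · exact lim_lv_zero20 π hπ (fun j => l j (g' 3)) z₂ (hg'.mono fun j hj => by rw [← hj]; exact e3 j)

end

section

variable {k₀ : Type u} [Field k₀] [CharZero k₀] {N : ℕ} {I : Ideal (MvPolynomial (Fin (N + 1)) k₀)}

theorem nodes (hX : Surf I) (q : ℕ) :
    ∃ Φ : MvPolynomial (Fin q × Fin (N + 1)) k₀, Φ ≠ 0 ∧ ∀ (K : Type u) [Field K] [Algebra k₀ K] (l : Fin q → Fin (N + 1) → K),
      aeval (fun p : Fin q × Fin (N + 1) => l p.1 p.2) Φ ≠ 0 → NodesOK I l := by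
  obtain ⟨Φ₁, h1, H1⟩ := three_phi20 hX q
  obtain ⟨Φ₂, h2, H2⟩ := col_phi20 hX q
  have h3 : ∃ Φ₃ : MvPolynomial (Fin q × Fin (N + 1)) k₀, Φ₃ ≠ 0 ∧ (¬ Plane I →
      ∀ (K : Type u) [Field K] [Algebra k₀ K] (l : Fin q → Fin (N + 1) → K),
      aeval (fun p : Fin q × Fin (N + 1) => l p.1 p.2) Φ₃ ≠ 0 →
      ∀ z₁ z₂ : Fin (N + 1) → K, z₁ ≠ 0 → z₂ ≠ 0 →
      (∀ s t : K, OnX I fun j => s * z₁ j + t * z₂ j) →
      ∀ g : Fin 4 → Fin q, Function.Injective g →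
      ¬ (lv (l (g 0)) z₁ = 0 ∧ lv (l (g 1)) z₁ = 0 ∧ lv (l (g 2)) z₂ = 0 ∧
        lv (l (g 3)) z₂ = 0)) := by
    by_cases hP : Plane I
    · exact ⟨1, one_ne_zero, fun h => absurd hP h⟩
    · obtain ⟨Φ₃, h3, H3⟩ := line_phi20 hX hP q
      exact ⟨Φ₃, h3, fun _ => H3⟩
  obtain ⟨Φ₃, h3, H3⟩ := h3
  refine ⟨Φ₁ * Φ₂ * Φ₃, mul_ne_zero (mul_ne_zero h1 h2) h3, fun K _ _ l hl => ?_⟩
  rw [map_mul, map_mul] at hl
  have hl3 := right_ne_zero_of_mul hl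
  have hl1 := left_ne_zero_of_mul (left_ne_zero_of_mul hl)
  have hl2 := right_ne_zero_of_mul (left_ne_zero_of_mul hl)
  refine ⟨fun z h0 hz g hg => H1 K l hl1 z h0 hz g hg, ?_, ?_⟩
  · intro z₁ z₂ z₃ n1 n2 n3 o1 o2 o3 g hg e0 e1 e2 e3 e4 e5
    rw [Fintype.linearIndependent_iff]
    intro c hc
    by_contra hne
    push Not at hne
    obtain ⟨i, hi⟩ := hne
    obtain ⟨j, hj⟩ := H2 K l hl2 z₁ z₂ z₃ n1 n2 n3 o1 o2 o3 g hg e0 e1 e2 e3 e4 e5 c
      (fun h => hi (congrFun h i))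
    apply hj
    have h5 := congrFun hc j
    simp only [Fin.sum_univ_three, Pi.add_apply, Pi.smul_apply, smul_eq_mul] at h5
    exact h5
  · intro hP z₁ z₂ hli hline g hg
    exact H3 hP K l hl3 z₁ z₂ (hli.ne_zero 0) (hli.ne_zero 1) hline g hg

end

end Pool.Agent.TRI
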