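import Pool.Agent.Helper20.DER.Plane

/-!
# TRI, G9, first half: nodes of generic linear forms on a surface
-/

set_option autoImplicit false

namespace Pool.Agent.TRI

open Module MvPolynomial AlgebraicIndependent Pool.Agent.Helper20.DER

universe u

section

variable {k₀ K : Type u} [Field k₀] [Field K] [Algebra k₀ K] {N : ℕ}
  {I : Ideal (MvPolynomial (Fin (N + 1)) k₀)}

theorem onX_smul20 (hX : Surf I) {z : Fin (N + 1) → K} (hz : OnX I z) (s : K) :
    OnX I fun j => s * z j := by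
  intro g hg
  have h1 := cone_of_onX hX hz g hg
  have h2 := MvPolynomial.comp_aeval_apply (R := k₀)
    (f := fun i => (Polynomial.X : Polynomial K) * Polynomial.C (z i))
    ((Polynomial.aeval s : Polynomial K →ₐ[K] K).restrictScalars k₀) g
  rw [h1, map_zero] at h2
  have h3 : ∀ i, ((Polynomial.aeval s : Polynomial K →ₐ[K] K).restrictScalars k₀)
      ((Polynomial.X : Polynomial K) * Polynomial.C (z i)) = s * z i := by
    intro i
    change Polynomial.aeval s _ = _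
    rw [Polynomial.coe_aeval_eq_eval, Polynomial.eval_mul, Polynomial.eval_X, Polynomial.eval_C]
  simp only [h3] at h2
  exact h2.symm

theorem lv_eq20 (l z : Fin (N + 1) → K) : lv l z = ∑ j, l j * z j := rfl

theorem lv_smul20 (l z : Fin (N + 1) → K) (s : K) (h : lv l z = 0) :
    ∑ j, l j * (s * z j) = 0 := by
  have h1 : ∑ j, l j * (s * z j) = s * ∑ j, l j * z j := by
    rw [Finset.mul_sum]
    exact Finset.sum_congr rfl fun j _ => by ring
  rw [h1, ← lv_eq20, h, mul_zero]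

/-- normalisation of a point -/
theorem normalise20 (hX : Surf I) {z : Fin (N + 1) → K} (h0 : z ≠ 0) (hz : OnX I z) :
    ∃ (s : K) (c : Fin (N + 1)), s ≠ 0 ∧ s * z c = 1 ∧ OnX I (fun j => s * z j) := by
  obtain ⟨c, hc⟩ := Function.ne_iff.1 h0
  exact ⟨(z c)⁻¹, c, inv_ne_zero hc, inv_mul_cancel₀ hc, onX_smul20 hX hz _⟩

theorem three_gen20 (hX : Surf I) {q : ℕ} (l : Fin q → Fin (N + 1) → K)
    (hl : AlgebraicIndependent k₀ fun p : Fin q × Fin (N + 1) => l p.1 p.2)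
    (z : Fin (N + 1) → K) (h0 : z ≠ 0) (hz : OnX I z) (g : Fin 3 → Fin q)
    (hg : Function.Injective g) :
    ¬ (lv (l (g 0)) z = 0 ∧ lv (l (g 1)) z = 0 ∧ lv (l (g 2)) z = 0) := by
  rintro ⟨e0, e1, e2⟩
  obtain ⟨s, c, hs, hsc, hzs⟩ := normalise20 hX h0 hz
  have h1 := node_eRk (k0 := k₀) l hl (fun _ : Unit => fun j => s * z j) (fun _ => c)
    (fun _ => hsc) g hg (fun _ => ()) (by
      intro i
      fin_cases i
      · exact lv_smul20 _ _ _ e0
      · exact lv_smul20 _ _ _ e1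
      · exact lv_smul20 _ _ _ e2)
  have h2 : (Set.range fun p : Unit × Fin (N + 1) => s * z p.2) ⊆
      Set.range fun j => s * z j := by
    rintro _ ⟨p, rfl⟩
    exact ⟨p.2, rfl⟩
  have h3 := h1.trans (((matroid k₀ K).eRk_mono h2).trans (eRk_le_two hX hsc hzs))
  rw [Fintype.card_fin] at h3
  exact absurd h3 (by norm_num)

/-- the rank of three collinear points -/
theorem col_aux20 {x y z : Fin (N + 1) → K} {s t : K} {c : Fin (N + 1)} (hc : z c = 1)
    (h : ∀ j, z j = s * x j + t * y j) (hx : (matroid k₀ K).eRk (Set.range x) ≤ 2)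
    (hy : (matroid k₀ K).eRk (Set.range y) ≤ 2) :
    (matroid k₀ K).eRk (Set.range x ∪ Set.range y ∪ Set.range z) ≤ 5 := by
  have key : ∃ w : K, s ∈ IntermediateField.adjoin k₀ (Set.range x ∪ Set.range y ∪ {w}) ∧
      t ∈ IntermediateField.adjoin k₀ (Set.range x ∪ Set.range y ∪ {w}) := by
    have h1 : s * x c + t * y c = 1 := by rw [← h c, hc]
    by_cases hxc : x c = 0
    · have hyc : y c ≠ 0 := by
        intro hyc
        rw [hxc, hyc, mul_zero, mul_zero, add_zero] at h1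
        exact zero_ne_one h1
      refine ⟨s, IntermediateField.subset_adjoin _ _ (Or.inr rfl), ?_⟩
      have h2 : t = (y c)⁻¹ := by
        rw [hxc, mul_zero, zero_add] at h1
        exact eq_inv_of_mul_eq_one_left h1
      rw [h2]
      exact inv_mem (IntermediateField.subset_adjoin _ _ (Or.inl (Or.inr ⟨c, rfl⟩)))
    · refine ⟨t, ?_, IntermediateField.subset_adjoin _ _ (Or.inr rfl)⟩
      have h2 : s = (1 - t * y c) * (x c)⁻¹ := by
        rw [eq_mul_inv_iff_mul_eq₀ hxc, ← h1]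
        ring
      rw [h2]
      refine mul_mem (sub_mem (one_mem _) (mul_mem ?_ ?_)) (inv_mem ?_)
      · exact IntermediateField.subset_adjoin _ _ (Or.inr rfl)
      · exact IntermediateField.subset_adjoin _ _ (Or.inl (Or.inr ⟨c, rfl⟩))
      · exact IntermediateField.subset_adjoin _ _ (Or.inl (Or.inl ⟨c, rfl⟩))
  obtain ⟨w, hs, ht⟩ := key
  have hsub : Set.range x ∪ Set.range y ∪ Set.range z ⊆
      (matroid k₀ K).closure (Set.range x ∪ Set.range y ∪ {w}) := by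
    refine fun a ha => adjoin_subset_closure _ ?_
    rcases ha with ha | ⟨j, rfl⟩
    · exact IntermediateField.subset_adjoin _ _ (Or.inl ha)
    · rw [h j]
      refine add_mem (mul_mem hs ?_) (mul_mem ht ?_)
      · exact IntermediateField.subset_adjoin _ _ (Or.inl (Or.inl ⟨j, rfl⟩))
      · exact IntermediateField.subset_adjoin _ _ (Or.inl (Or.inr ⟨j, rfl⟩))
  refine ((matroid k₀ K).eRk_mono hsub).trans ?_
  rw [Matroid.eRk_closure_eq]
  refine (Matroid.eRk_union_le_eRk_add_encard _ _ _).trans ?_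
  rw [Set.encard_singleton]
  have h5 := (Matroid.eRk_union_le_eRk_add_eRk (matroid k₀ K) (Set.range x) (Set.range y)).trans
    (add_le_add hx hy)
  exact (add_le_add h5 le_rfl).trans (by norm_num)

theorem col_gen20 (hX : Surf I) {q : ℕ} (l : Fin q → Fin (N + 1) → K)
    (hl : AlgebraicIndependent k₀ fun p : Fin q × Fin (N + 1) => l p.1 p.2)
    (z₁ z₂ z₃ : Fin (N + 1) → K) (h1 : z₁ ≠ 0) (h2 : z₂ ≠ 0) (h3 : z₃ ≠ 0) (hz₁ : OnX I z₁)
    (hz₂ : OnX I z₂) (hz₃ : OnX I z₃) (g : Fin 6 → Fin q) (hg : Function.Injective g)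
    (e0 : lv (l (g 0)) z₁ = 0) (e1 : lv (l (g 1)) z₁ = 0) (e2 : lv (l (g 2)) z₂ = 0)
    (e3 : lv (l (g 3)) z₂ = 0) (e4 : lv (l (g 4)) z₃ = 0) (e5 : lv (l (g 5)) z₃ = 0)
    (c : Fin 3 → K) (hc : c ≠ 0) (hsum : ∀ j, c 0 * z₁ j + c 1 * z₂ j + c 2 * z₃ j = 0) :
    False := by
  obtain ⟨s₁, c₁, hs₁, hc₁, hx₁⟩ := normalise20 hX h1 hz₁
  obtain ⟨s₂, c₂, hs₂, hc₂, hx₂⟩ := normalise20 hX h2 hz₂
  obtain ⟨s₃, c₃, hs₃, hc₃, hx₃⟩ := normalise20 hX h3 hz₃
  have hr₁ := eRk_le_two hX hc₁ hx₁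
  have hr₂ := eRk_le_two hX hc₂ hx₂
  have hr₃ := eRk_le_two hX hc₃ hx₃
  set y₁ : Fin (N + 1) → K := fun j => s₁ * z₁ j with hy₁
  set y₂ : Fin (N + 1) → K := fun j => s₂ * z₂ j with hy₂
  set y₃ : Fin (N + 1) → K := fun j => s₃ * z₃ j with hy₃
  have h6 := node_eRk (k0 := k₀) l hl (![y₁, y₂, y₃] : Fin 3 → Fin (N + 1) → K) ![c₁, c₂, c₃]
    (by
      intro i
      fin_cases i
      · exact hc₁
      · exact hc₂
      · exact hc₃) g hg (![0, 0, 1, 1, 2, 2] : Fin 6 → Fin 3) (by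
      intro i
      fin_cases i
      · exact lv_smul20 _ _ _ e0
      · exact lv_smul20 _ _ _ e1
      · exact lv_smul20 _ _ _ e2
      · exact lv_smul20 _ _ _ e3
      · exact lv_smul20 _ _ _ e4
      · exact lv_smul20 _ _ _ e5)
  rw [Fintype.card_fin] at h6
  set S : Set K := Set.range fun p : Fin 3 × Fin (N + 1) =>
    (![y₁, y₂, y₃] : Fin 3 → Fin (N + 1) → K) p.1 p.2 with hS
  have hSsub : S ⊆ Set.range y₁ ∪ Set.range y₂ ∪ Set.range y₃ := by
    rintro _ ⟨⟨i, j⟩, rfl⟩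
    fin_cases i
    · exact Or.inl (Or.inl ⟨j, rfl⟩)
    · exact Or.inl (Or.inr ⟨j, rfl⟩)
    · exact Or.inr ⟨j, rfl⟩
  have h7 : (6 : ℕ∞) ≤ (matroid k₀ K).eRk (Set.range y₁ ∪ Set.range y₂ ∪ Set.range y₃) :=
    h6.trans ((matroid k₀ K).eRk_mono hSsub)
  have hfin : ∀ T : Set K, (matroid k₀ K).eRk T ≤ 5 →
      Set.range y₁ ∪ Set.range y₂ ∪ Set.range y₃ ⊆ T → False := by
    intro T hT hsub
    have h8 := h7.trans (((matroid k₀ K).eRk_mono hsub).trans hT)
    exact absurd h8 (by norm_num)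
  obtain ⟨i, hi⟩ := Function.ne_iff.1 hc
  fin_cases i
  · have hi' : c 0 ≠ 0 := hi
    have h8 : ∀ j, y₁ j = (-(s₁ * c 1 / (c 0 * s₂))) * y₂ j + (-(s₁ * c 2 / (c 0 * s₃))) * y₃ j := by
      intro j
      have h9 := hsum j
      have h10 : z₁ j = -(c 1 * z₂ j + c 2 * z₃ j) / c 0 := by
        field_simp
        linear_combination h9
      simp only [hy₁, hy₂, hy₃]
      rw [h10]
      field_simp
      ring
    exact hfin _ (col_aux20 hc₁ h8 hr₂ hr₃) (by
      rintro a ((ha | ha) | ha)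
      · exact Or.inr ha
      · exact Or.inl (Or.inl ha)
      · exact Or.inl (Or.inr ha))
  · have hi' : c 1 ≠ 0 := hi
    have h8 : ∀ j, y₂ j = (-(s₂ * c 0 / (c 1 * s₁))) * y₁ j + (-(s₂ * c 2 / (c 1 * s₃))) * y₃ j := by
      intro j
      have h9 := hsum j
      have h10 : z₂ j = -(c 0 * z₁ j + c 2 * z₃ j) / c 1 := by
        field_simp
        linear_combination h9
      simp only [hy₁, hy₂, hy₃]
      rw [h10]
      field_simp
      ring
    exact hfin _ (col_aux20 hc₂ h8 hr₁ hr₃) (by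
      rintro a ((ha | ha) | ha)
      · exact Or.inl (Or.inl ha)
      · exact Or.inr ha
      · exact Or.inl (Or.inr ha))
  · have hi' : c 2 ≠ 0 := hi
    have h8 : ∀ j, y₃ j = (-(s₃ * c 0 / (c 2 * s₁))) * y₁ j + (-(s₃ * c 1 / (c 2 * s₂))) * y₂ j := by
      intro j
      have h9 := hsum j
      have h10 : z₃ j = -(c 0 * z₁ j + c 1 * z₂ j) / c 2 := by
        field_simp
        linear_combination h9
      simp only [hy₁, hy₂, hy₃]
      rw [h10]
      field_simp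
      ring
    exact hfin _ (col_aux20 hc₃ h8 hr₁ hr₂) (fun a ha => ha)

theorem line_gen20 [CharZero k₀] (hX : Surf I) (hP : ¬ Plane I) {q : ℕ}
    (l : Fin q → Fin (N + 1) → K)
    (hl : AlgebraicIndependent k₀ fun p : Fin q × Fin (N + 1) => l p.1 p.2)
    (z₁ z₂ : Fin (N + 1) → K) (h1 : z₁ ≠ 0) (h2 : z₂ ≠ 0)
    (hline : ∀ s t : K, OnX I fun j => s * z₁ j + t * z₂ j) (g : Fin 4 → Fin q)
    (hg : Function.Injective g) (e0 : lv (l (g 0)) z₁ = 0) (e1 : lv (l (g 1)) z₁ = 0)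
    (e2 : lv (l (g 2)) z₂ = 0) (e3 : lv (l (g 3)) z₂ = 0) : False := by
  have hz₁ : OnX I z₁ := by simpa using hline 1 0
  have hz₂ : OnX I z₂ := by simpa using hline 0 1
  obtain ⟨s₁, c₁, hs₁, hc₁, hx₁⟩ := normalise20 hX h1 hz₁
  obtain ⟨s₂, c₂, hs₂, hc₂, hx₂⟩ := normalise20 hX h2 hz₂
  set y₁ : Fin (N + 1) → K := fun j => s₁ * z₁ j with hy₁
  set y₂ : Fin (N + 1) → K := fun j => s₂ * z₂ j with hy₂
  have h6 := node_eRk (k0 := k₀) l hl (![y₁, y₂] : Fin 2 → Fin (N + 1) → K) ![c₁, c₂]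
    (by
      intro i
      fin_cases i
      · exact hc₁
      · exact hc₂) g hg (![0, 0, 1, 1] : Fin 4 → Fin 2) (by
      intro i
      fin_cases i
      · exact lv_smul20 _ _ _ e0
      · exact lv_smul20 _ _ _ e1
      · exact lv_smul20 _ _ _ e2
      · exact lv_smul20 _ _ _ e3)
  rw [Fintype.card_fin] at h6
  have hSsub : (Set.range fun p : Fin 2 × Fin (N + 1) =>
    (![y₁, y₂] : Fin 2 → Fin (N + 1) → K) p.1 p.2) ⊆ Set.range y₁ ∪ Set.range y₂ := by
    rintro _ ⟨⟨i, j⟩, rfl⟩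
    fin_cases i
    · exact Or.inl ⟨j, rfl⟩
    · exact Or.inr ⟨j, rfl⟩
  have h7 : ((4 : ℕ) : ℕ∞) ≤ (matroid k₀ K).eRk (Set.range y₁ ∪ Set.range y₂) :=
    h6.trans ((matroid k₀ K).eRk_mono hSsub)
  refine hP (plane_of_line hX hc₁ hc₂ (fun s t => ?_) h7)
  have h8 := hline (s * s₁) (t * s₂)
  have h9 : (fun j => s * y₁ j + t * y₂ j) = fun j => s * s₁ * z₁ j + t * s₂ * z₂ j := by
    funext j
    simp only [hy₁, hy₂]
    ring
  rw [h9]
  exact h8

end

end Pool.Agent.TRI
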